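import Pool.Agent.W2helper25.AR.Inf

/-!
# Shephard groups: replacing infinite labels by finite ones
-/

set_option autoImplicit false

namespace Pool.Agent.W2helper25.AR

open Pool.Agent.Y110.FJ
open Pool.Agent.Y462.SS (Closed)
open Pool.Agent.Helper741 (alt alt_zero map_alt)
open Pool.Agent.K7.H87.FJ6

variable {B : Type} {M M' : CoxeterMatrix B} {p : B → ℕ}

open Classical in
/-- one more label -/
noncomputable def upd (M M' : CoxeterMatrix B) (s t : B) : CoxeterMatrix B where
  M := Matrix.of fun i j => if (i = s ∧ j = t) ∨ (i = t ∧ j = s) then M' i j else M i j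
  isSymm := by
    ext i j
    simp only [Matrix.transpose_apply, Matrix.of_apply]
    by_cases h : (i = s ∧ j = t) ∨ (i = t ∧ j = s)
    · have h' : (j = s ∧ i = t) ∨ (j = t ∧ i = s) := by tauto
      rw [if_pos h, if_pos h', M'.symmetric]
    · have h' : ¬ ((j = s ∧ i = t) ∨ (j = t ∧ i = s)) := by tauto
      rw [if_neg h, if_neg h', M.symmetric]
  diagonal i := by
    simp only [Matrix.of_apply]
    split_ifs
    · exact M'.diagonal i
    · exact M.diagonal i
  off_diagonal i j h := by
    simp only [Matrix.of_apply]
    split_ifs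
    · exact M'.off_diagonal i j h
    · exact M.off_diagonal i j h

theorem upd_of {s t i j : B} (h : (i = s ∧ j = t) ∨ (i = t ∧ j = s)) :
    upd M M' s t i j = M' i j := by
  classical
  show (if (i = s ∧ j = t) ∨ (i = t ∧ j = s) then M' i j else M i j) = M' i j
  rw [if_pos h]

theorem upd_ne {s t i j : B} (h : ¬ ((i = s ∧ j = t) ∨ (i = t ∧ j = s))) :
    upd M M' s t i j = M i j := by
  classical
  show (if (i = s ∧ j = t) ∨ (i = t ∧ j = s) then M' i j else M i j) = M i j
  rw [if_neg h]

variable {C : ∀ (G : Type) [Group G], Prop}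

/-- finite rank -/
theorem fill_fin [Finite B] (hC : ClosedE C) (hadm : Adm M' p) (hP : C (Sh M' p)) :
    ∀ (n : ℕ) (M : CoxeterMatrix B), {q : B × B | M q.1 q.2 ≠ M' q.1 q.2}.ncard = n →
      (∀ i j, M i j = 0 ∨ M' i j = M i j) → C (Sh M p) := by
  intro n
  induction n using Nat.strong_induction_on with
  | _ n ih =>
    intro M hn h
    by_cases hM : ∃ s t, M s t ≠ M' s t
    · obtain ⟨s, t, hst⟩ := hM
      have h0 : M s t = 0 := by
        rcases h s t with h1 | h1
        · exact h1
        · exact absurd h1.symm hst
      have hne : s ≠ t := by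
        intro e
        rw [e, M.diagonal] at h0
        exact absurd h0 one_ne_zero
      have h' : ∀ i j, upd M M' s t i j = 0 ∨ M' i j = upd M M' s t i j := by
        intro i j
        by_cases hij : (i = s ∧ j = t) ∨ (i = t ∧ j = s)
        · rw [upd_of hij]
          exact Or.inr rfl
        · rw [upd_ne hij]
          exact h i j
      have hlt : {q : B × B | upd M M' s t q.1 q.2 ≠ M' q.1 q.2}.ncard < n := by
        rw [← hn]
        apply Set.ncard_lt_ncard
        · refine ⟨fun q hq hq' => ?_, fun hsub => ?_⟩
          · by_cases hij : (q.1 = s ∧ q.2 = t) ∨ (q.1 = t ∧ q.2 = s)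
            · exact hq (upd_of hij)
            · exact hq ((upd_ne hij).trans hq')
          · have h1 : ((s, t) : B × B) ∈ {q : B × B | M q.1 q.2 ≠ M' q.1 q.2} := hst
            exact hsub h1 (upd_of (Or.inl ⟨rfl, rfl⟩))
        · exact Set.toFinite _
      have hadm1 : Adm (upd M M' s t) p := by
        refine ⟨hadm.even, fun i j hij => ?_⟩
        rcases h' i j with h1 | h1
        · rw [h1] at hij
          exact absurd hij (by decide)
        · rw [← h1] at hij
          exact hadm.odd i j hij
      refine step hC hadm1 hne h0 (fun i j h1 h2 => ?_) (ih _ hlt _ rfl h')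
      exact upd_ne (fun e => e.elim h1 h2)
    · push Not at hM
      have : M = M' := by
        apply CoxeterMatrix.ext
        ext i j
        exact hM i j
      rw [this]
      exact hP

/-- a homomorphism defined on the generated subgroup -/
theorem C_PP (hC : Closed C) (hadm : Adm M p) (F : Set B)
    (h : C (Sh (pull M (Subtype.val : F → B) Subtype.val_injective) (p ∘ Subtype.val))) :
    C ↥(PP M p F) := by
  have hinj := inc_inj hadm (Subtype.val : F → B) Subtype.val_injective
  have hle : PP M p F ≤ (inc M p (Subtype.val : F → B) Subtype.val_injective).range := by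
    unfold PP
    rw [Subgroup.closure_le]
    rintro _ ⟨i, hi, rfl⟩
    exact ⟨Sh.gen _ _ ⟨i, hi⟩, inc_gen _ _ _ _ _⟩
  exact hC.of_injective _ _ ((MonoidHom.ofInjective hinj).symm.toMonoidHom.comp
    (Subgroup.inclusion hle)) ((MonoidHom.ofInjective hinj).symm.injective.comp
    (Subgroup.inclusion_injective hle)) h

/-- **replacing infinite labels by finite ones** -/
theorem fill (hC : ClosedE C) (hadm : Adm M' p) (h : ∀ i j, M i j = 0 ∨ M' i j = M i j)
    (hP : C (Sh M' p)) : C (Sh M p) := by
  have hadmM : Adm M p := by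
    refine ⟨hadm.even, fun i j hij => ?_⟩
    rcases h i j with h1 | h1
    · rw [h1] at hij
      exact absurd hij (by decide)
    · rw [← h1] at hij
      exact hadm.odd i j hij
  refine Pool.Agent.Y430.SS.of_directed hC.base (Sh M p) (Finset B) (fun i j => ?_)
    (fun F => PP M p (F : Set B)) (fun F F' h => PP_mono (by exact_mod_cast h)) (fun x => ?_)
    (fun F => ?_)
  · classical
    exact ⟨i ∪ j, Finset.subset_union_left, Finset.subset_union_right⟩
  · classical
    induction x using Sh.induction with
    | one => exact ⟨∅, one_mem _⟩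
    | gen i => exact ⟨{i}, gen_mem (by simp)⟩
    | mul x y hx hy =>
      obtain ⟨F, hF⟩ := hx
      obtain ⟨F', hF'⟩ := hy
      exact ⟨F ∪ F', mul_mem (PP_mono (by simp) hF) (PP_mono (by simp) hF')⟩
    | inv x hx =>
      obtain ⟨F, hF⟩ := hx
      exact ⟨F, inv_mem hF⟩
  · have hv : Function.Injective (Subtype.val : ((F : Set B) : Type) → B) :=
      Subtype.val_injective
    have : Finite ((F : Set B) : Type) := F.finite_toSet
    have hPF : C (Sh (pull M' (Subtype.val : ((F : Set B) : Type) → B) hv) (p ∘ Subtype.val)) :=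
      hC.base.of_injective _ _ (inc M' p _ hv) (inc_inj hadm _ hv) hP
    exact C_PP hC.base hadmM (F : Set B)
      (fill_fin hC (hadm.pull (Subtype.val : ((F : Set B) : Type) → B) hv) hPF _ _ rfl
        (fun i j => h _ _))

end Pool.Agent.W2helper25.AR
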