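import Pool.Agent.W2helper25.AR.Step
import Pool.Agent.Y430.SS.Lf

/-!
# Shephard groups of infinite rank
-/

set_option autoImplicit false

namespace Pool.Agent.W2helper25.AR

open Pool.Agent.Y110.FJ
open Pool.Agent.Y462.SS (Closed)
open Pool.Agent.Helper741 (alt alt_zero map_alt)
open Pool.Agent.K7.H87.FJ6

section inf

variable {A B : Type*} (M : CoxeterMatrix B) (p : B → ℕ)

/-- the relators which involve only certain generators -/
def relF (F : Finset B) : Set (FreeGroup B) :=
  {r | (∃ i ∈ F, ∃ j ∈ F, r = alt (FreeGroup.of i) (FreeGroup.of j) (M i j) *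
    (alt (FreeGroup.of j) (FreeGroup.of i) (M i j))⁻¹) ∨ ∃ i ∈ F, r = FreeGroup.of i ^ p i}

theorem relF_mono {F F' : Finset B} (h : F ⊆ F') : relF M p F ⊆ relF M p F' := by
  rintro r (⟨i, hi, j, hj, hr⟩ | ⟨i, hi, hr⟩)
  · exact Or.inl ⟨i, h hi, j, h hj, hr⟩
  · exact Or.inr ⟨i, h hi, hr⟩

theorem exists_relF (w : FreeGroup B) (hw : w ∈ Subgroup.normalClosure (rels M p)) :
    ∃ F : Finset B, w ∈ Subgroup.normalClosure (relF M p F) := by
  classical
  unfold Subgroup.normalClosure at hw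
  induction hw using Subgroup.closure_induction with
  | mem x hx =>
    obtain ⟨r, hr, hx⟩ := Group.mem_conjugatesOfSet_iff.1 hx
    obtain ⟨g, hg⟩ := isConj_iff.1 hx
    rcases hr with ⟨i, j, hr⟩ | ⟨i, hr⟩
    · refine ⟨{i, j}, ?_⟩
      rw [← hg]
      refine (Subgroup.normalClosure_normal).conj_mem _ (Subgroup.subset_normalClosure ?_) g
      exact Or.inl ⟨i, by simp, j, by simp, hr⟩
    · refine ⟨{i}, ?_⟩
      rw [← hg]
      refine (Subgroup.normalClosure_normal).conj_mem _ (Subgroup.subset_normalClosure ?_) g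
      exact Or.inr ⟨i, by simp, hr⟩
  | one => exact ⟨∅, one_mem _⟩
  | mul x y _ _ hx hy =>
    obtain ⟨F, hF⟩ := hx
    obtain ⟨F', hF'⟩ := hy
    exact ⟨F ∪ F', mul_mem
      (Subgroup.normalClosure_mono (relF_mono M p Finset.subset_union_left) hF)
      (Subgroup.normalClosure_mono (relF_mono M p Finset.subset_union_right) hF')⟩
  | inv x _ hx =>
    obtain ⟨F, hF⟩ := hx
    exact ⟨F, inv_mem hF⟩

variable {M p}

theorem exists_supp (w : FreeGroup A) : ∃ (S : Finset A) (u : FreeGroup S),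
    FreeGroup.map (Subtype.val : S → A) u = w := by
  classical
  have key : ∀ (S S' : Finset A) (h : S ⊆ S') (u : FreeGroup S),
      FreeGroup.map (Subtype.val : S' → A) (FreeGroup.map (fun x : S => (⟨x.1, h x.2⟩ : S')) u) =
        FreeGroup.map (Subtype.val : S → A) u := by
    intro S S' h u
    rw [FreeGroup.map.comp]
    rfl
  induction w using FreeGroup.induction_on with
  | C1 => exact ⟨∅, 1, map_one _⟩
  | of a => exact ⟨{a}, FreeGroup.of ⟨a, by simp⟩, FreeGroup.map.of⟩
  | inv_of a h =>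
    obtain ⟨S, u, hu⟩ := h
    exact ⟨S, u⁻¹, by rw [map_inv, hu]⟩
  | mul x y hx hy =>
    obtain ⟨S, u, hu⟩ := hx
    obtain ⟨S', u', hu'⟩ := hy
    refine ⟨S ∪ S', FreeGroup.map (fun x : S => (⟨x.1, Finset.subset_union_left x.2⟩ : ↥(S ∪ S'))) u *
      FreeGroup.map (fun x : S' => (⟨x.1, Finset.subset_union_right x.2⟩ : ↥(S ∪ S'))) u', ?_⟩
    rw [map_mul, key, key, hu, hu']

/-- **standard parabolic subgroups**, infinite rank -/
theorem inc_inj (h : Adm M p) (ι : A → B) (hι : Function.Injective ι) :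
    Function.Injective (inc M p ι hι) := by
  classical
  rw [injective_iff_map_eq_one]
  intro x hx
  obtain ⟨w, rfl⟩ := PresentedGroup.mk_surjective _ x
  have h1 : inc M p ι hι (PresentedGroup.mk _ w) = PresentedGroup.mk _ (FreeGroup.map ι w) := by
    have h2 : (inc M p ι hι).comp (PresentedGroup.mk _) =
        (PresentedGroup.mk (rels M p)).comp (FreeGroup.map ι) := by
      apply FreeGroup.ext_hom
      intro a
      rw [MonoidHom.comp_apply, MonoidHom.comp_apply, FreeGroup.map.of]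
      exact inc_gen M p ι hι a
    exact DFunLike.congr_fun h2 w
  rw [h1] at hx
  have hw : FreeGroup.map ι w ∈ Subgroup.normalClosure (rels M p) :=
    (QuotientGroup.eq_one_iff _).1 hx
  obtain ⟨F₀, hF₀⟩ := exists_relF M p _ hw
  obtain ⟨S, u, hu⟩ := exists_supp w
  obtain ⟨F, hF⟩ : ∃ F : Finset B, F = F₀ ∪ S.image ι := ⟨_, rfl⟩
  have hFw : FreeGroup.map ι w ∈ Subgroup.normalClosure (relF M p F) :=
    Subgroup.normalClosure_mono (relF_mono M p (by rw [hF]; exact Finset.subset_union_left)) hF₀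
  have hSF : ∀ s ∈ S, ι s ∈ F := fun s hs => by
    rw [hF]
    exact Finset.mem_union_right _ (Finset.mem_image_of_mem ι hs)
  -- the finite graph
  let vF : F → B := Subtype.val
  have hvF : Function.Injective vF := Subtype.val_injective
  let ρ : FreeGroup B →* Sh (pull M vF hvF) (p ∘ vF) :=
    FreeGroup.lift (fun b => if hb : b ∈ F then Sh.gen _ _ (⟨b, hb⟩ : F) else 1)
  have hρ : ∀ b (hb : b ∈ F), ρ (FreeGroup.of b) = Sh.gen _ _ (⟨b, hb⟩ : F) := by
    intro b hb
    show FreeGroup.lift _ _ = _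
    rw [FreeGroup.lift_apply_of]
    exact dif_pos hb
  have hker : Subgroup.normalClosure (relF M p F) ≤ ρ.ker := by
    apply Subgroup.normalClosure_le_normal
    rintro r (⟨i, hi, j, hj, rfl⟩ | ⟨i, hi, rfl⟩)
    · rw [SetLike.mem_coe, MonoidHom.mem_ker, map_mul, map_inv, map_alt, map_alt, hρ i hi, hρ j hj]
      have := Sh.rel (M := pull M vF hvF) (p := p ∘ vF) (⟨i, hi⟩ : F) ⟨j, hj⟩
      rw [pull_apply] at this
      rw [mul_inv_eq_one]
      exact this
    · rw [SetLike.mem_coe, MonoidHom.mem_ker, map_pow, hρ i hi]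
      exact Sh.pow (M := pull M vF hvF) (p := p ∘ vF) (⟨i, hi⟩ : F)
  have h3 : ρ (FreeGroup.map ι w) = 1 := hker hFw
  let ιS : S → F := fun s => ⟨ι s.1, hSF s.1 s.2⟩
  have hιS : Function.Injective ιS := fun s s' e =>
    Subtype.ext (hι (congrArg Subtype.val e))
  have h4 : ρ (FreeGroup.map ι w) =
      inc (pull M vF hvF) (p ∘ vF) ιS hιS (PresentedGroup.mk _ u) := by
    rw [← hu]
    have h5 : (ρ.comp (FreeGroup.map ι)).comp (FreeGroup.map (Subtype.val : S → A)) =
        (inc (pull M vF hvF) (p ∘ vF) ιS hιS).comp (PresentedGroup.mk _) := by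
      apply FreeGroup.ext_hom
      intro s
      rw [MonoidHom.comp_apply, MonoidHom.comp_apply, MonoidHom.comp_apply, FreeGroup.map.of,
        FreeGroup.map.of, hρ _ (hSF s.1 s.2)]
      exact (inc_gen (pull M vF hvF) (p ∘ vF) ιS hιS s).symm
    exact DFunLike.congr_fun h5 u
  have h6 : PresentedGroup.mk (rels (pull (pull M vF hvF) ιS hιS) ((p ∘ vF) ∘ ιS)) u = 1 := by
    apply inc_injective (h.pull vF hvF) ιS hιS
    rw [← h4, h3, map_one]
  let k : Sh (pull (pull M vF hvF) ιS hιS) ((p ∘ vF) ∘ ιS) →* Sh (pull M ι hι) (p ∘ ι) :=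
    Sh.lift (fun s => Sh.gen _ _ s.1) (fun s s' => Sh.rel (M := pull M ι hι) (p := p ∘ ι) s.1 s'.1)
      (fun s => Sh.pow (M := pull M ι hι) (p := p ∘ ι) s.1)
  have h7 : k (PresentedGroup.mk _ u) = PresentedGroup.mk _ w := by
    rw [← hu]
    have h8 : k.comp (PresentedGroup.mk _) =
        (PresentedGroup.mk (rels (pull M ι hι) (p ∘ ι))).comp
          (FreeGroup.map (Subtype.val : S → A)) := by
      apply FreeGroup.ext_hom
      intro s
      rw [MonoidHom.comp_apply, MonoidHom.comp_apply, FreeGroup.map.of]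
      exact Sh.lift_gen _ _ _ _
    exact DFunLike.congr_fun h8 u
  rw [← h7, h6, map_one]

end inf

end Pool.Agent.W2helper25.AR
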