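import Pool.Agent.K7.H87.FJ6.Lek
import Pool.Agent.W2helper25.GP.Fin

/-!
# Shephard groups: replacing one infinite label by a finite one
-/

set_option autoImplicit false

namespace Pool.Agent.W2helper25.AR

open Pool.Agent.Y110.FJ
open Pool.Agent.Y462.SS (Closed)
open Pool.Agent.Helper741 (alt alt_zero)
open Pool.Agent.K7.H87.FJ6
open Pool.Agent.W2helper25.GP (s_am agree mem_agree)

variable {B : Type} {M M₁ : CoxeterMatrix B} {p : B → ℕ}

/-- the map which adds relations -/
def tr (p : B → ℕ) (h : ∀ i j, M i j = 0 ∨ M₁ i j = M i j) : Sh M p →* Sh M₁ p :=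
  Sh.lift (Sh.gen M₁ p) (fun i j => by
    rcases h i j with h0 | h0
    · rw [h0, alt_zero, alt_zero]
    · rw [← h0]
      exact Sh.rel i j) (fun i => Sh.pow i)

@[simp] theorem tr_gen (h : ∀ i j, M i j = 0 ∨ M₁ i j = M i j) (i : B) :
    tr p h (Sh.gen M p i) = Sh.gen M₁ p i := Sh.lift_gen _ _ _ _

/-- the parabolic subgroup -/
def PP (M : CoxeterMatrix B) (p : B → ℕ) (S : Set B) : Subgroup (Sh M p) :=
  Subgroup.closure (Sh.gen M p '' S)

theorem gen_mem {S : Set B} {i : B} (h : i ∈ S) : Sh.gen M p i ∈ PP M p S :=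
  Subgroup.subset_closure ⟨i, h, rfl⟩

theorem PP_mono {S S' : Set B} (h : S ⊆ S') : PP M p S ≤ PP M p S' :=
  Subgroup.closure_mono (Set.image_mono h)

/-- the map which adds relations is injective on parabolic subgroups where it changes nothing -/
theorem tr_inj [Finite B] (hadm : Adm M₁ p) (h : ∀ i j, M i j = 0 ∨ M₁ i j = M i j) (S : Set B)
    (hS : ∀ i ∈ S, ∀ j ∈ S, M₁ i j = M i j) (a : Sh M p) (ha : a ∈ PP M p S)
    (h1 : tr p h a = 1) : a = 1 := by
  let ι : S → B := Subtype.val
  have hι : Function.Injective ι := Subtype.val_injective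
  let k : Sh (pull M₁ ι hι) (p ∘ ι) →* Sh M p :=
    Sh.lift (fun x => Sh.gen M p (ι x)) (fun x y => by
      rw [pull_apply, hS x.1 x.2 y.1 y.2]
      exact Sh.rel _ _) (fun x => Sh.pow _)
  have hk : ∀ x, k (Sh.gen _ _ x) = Sh.gen M p (ι x) := fun x => Sh.lift_gen _ _ _ _
  have hkt : ∀ u, tr p h (k u) = inc M₁ p ι hι u := by
    intro u
    have h2 : (tr p h).comp k = inc M₁ p ι hι := by
      apply Sh.hom_ext
      intro x
      rw [MonoidHom.comp_apply, hk, tr_gen, inc_gen]
    exact DFunLike.congr_fun h2 u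
  have hle : PP M p S ≤ k.range := by
    unfold PP
    rw [Subgroup.closure_le]
    rintro _ ⟨i, hi, rfl⟩
    exact ⟨Sh.gen _ _ ⟨i, hi⟩, hk _⟩
  obtain ⟨u, rfl⟩ := hle ha
  rw [hkt] at h1
  have h3 : u = 1 := inc_injective hadm ι hι (h1.trans (map_one _).symm)
  rw [h3, map_one]

/-- the decomposition at an infinite label -/
theorem amg {s t : B} (hst : s ≠ t) (h0 : M s t = 0) :
    Amg (PP M p {i | i ≠ s}) (PP M p {i | i ≠ t}) (PP M p {i | i ≠ s ∧ i ≠ t}) where
  le_left := PP_mono fun _ h => h.1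
  le_right := PP_mono fun _ h => h.2
  gen := by
    rw [eq_top_iff, ← Sh.closure_range_gen, Subgroup.closure_le]
    rintro _ ⟨i, rfl⟩
    by_cases hi : i = s
    · exact Subgroup.mem_sup_right (gen_mem (S := {i | i ≠ t}) (by rw [hi]; exact hst))
    · exact Subgroup.mem_sup_left (gen_mem (S := {i | i ≠ s}) hi)
  univ := by
    classical
    intro L _ f g hfg
    obtain ⟨F, hF1, hF2⟩ : ∃ F : B → L,
        (∀ i (hi : i ≠ s), F i = f ⟨Sh.gen M p i, gen_mem (S := {i | i ≠ s}) hi⟩) ∧
        ∀ i (hi : i ≠ t), F i = g ⟨Sh.gen M p i, gen_mem (S := {i | i ≠ t}) hi⟩ := by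
      refine ⟨fun i => if hi : i = s then g ⟨Sh.gen M p i, gen_mem (S := {i | i ≠ t})
        (by rw [hi]; exact hst)⟩ else f ⟨Sh.gen M p i, gen_mem (S := {i | i ≠ s}) hi⟩, ?_, ?_⟩
      · intro i hi
        exact dif_neg hi
      · intro i hi
        by_cases his : i = s
        · simp only [dif_pos his]
        · simp only [dif_neg his]
          exact hfg _ (gen_mem (S := {i | i ≠ s ∧ i ≠ t}) ⟨his, hi⟩)
    have hrel : ∀ i j, alt (F i) (F j) (M i j) = alt (F j) (F i) (M i j) := by
      intro i j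
      by_cases h1 : i ≠ s ∧ j ≠ s
      · rw [hF1 i h1.1, hF1 j h1.2, ← Pool.Agent.Helper741.map_alt,
          ← Pool.Agent.Helper741.map_alt]
        congr 1
        apply Subtype.ext
        have e1 := Pool.Agent.Helper741.map_alt (PP M p {i | i ≠ s}).subtype
          ⟨Sh.gen M p i, gen_mem (S := {i | i ≠ s}) h1.1⟩
          ⟨Sh.gen M p j, gen_mem (S := {i | i ≠ s}) h1.2⟩ (M i j)
        have e2 := Pool.Agent.Helper741.map_alt (PP M p {i | i ≠ s}).subtype
          ⟨Sh.gen M p j, gen_mem (S := {i | i ≠ s}) h1.2⟩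
          ⟨Sh.gen M p i, gen_mem (S := {i | i ≠ s}) h1.1⟩ (M i j)
        exact e1.trans ((Sh.rel i j).trans e2.symm)
      · by_cases h2 : i ≠ t ∧ j ≠ t
        · rw [hF2 i h2.1, hF2 j h2.2, ← Pool.Agent.Helper741.map_alt,
            ← Pool.Agent.Helper741.map_alt]
          congr 1
          apply Subtype.ext
          have e1 := Pool.Agent.Helper741.map_alt (PP M p {i | i ≠ t}).subtype
            ⟨Sh.gen M p i, gen_mem (S := {i | i ≠ t}) h2.1⟩
            ⟨Sh.gen M p j, gen_mem (S := {i | i ≠ t}) h2.2⟩ (M i j)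
          have e2 := Pool.Agent.Helper741.map_alt (PP M p {i | i ≠ t}).subtype
            ⟨Sh.gen M p j, gen_mem (S := {i | i ≠ t}) h2.2⟩
            ⟨Sh.gen M p i, gen_mem (S := {i | i ≠ t}) h2.1⟩ (M i j)
          exact e1.trans ((Sh.rel i j).trans e2.symm)
        · have h3 : M i j = 0 := by
            by_cases his : i = s
            · by_cases hjt : j = t
              · rw [his, hjt]
                exact h0
              · by_cases hit : i = t
                · exact absurd (his.symm.trans hit) hst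
                · exact absurd ⟨hit, hjt⟩ h2
            · by_cases hjs : j = s
              · by_cases hit : i = t
                · rw [hit, hjs, M.symmetric]
                  exact h0
                · refine absurd ⟨hit, ?_⟩ h2
                  rw [hjs]
                  exact hst
              · exact absurd ⟨his, hjs⟩ h1
          rw [h3, alt_zero, alt_zero]
    have hpow : ∀ i, F i ^ p i = 1 := by
      intro i
      by_cases hi : i = s
      · have hit : i ≠ t := by rw [hi]; exact hst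
        rw [hF2 i hit, ← map_pow]
        have : (⟨Sh.gen M p i, gen_mem (S := {i | i ≠ t}) hit⟩ : PP M p {i | i ≠ t}) ^ p i = 1 :=
          Subtype.ext (Sh.pow i)
        rw [this, map_one]
      · rw [hF1 i hi, ← map_pow]
        have : (⟨Sh.gen M p i, gen_mem (S := {i | i ≠ s}) hi⟩ : PP M p {i | i ≠ s}) ^ p i = 1 :=
          Subtype.ext (Sh.pow i)
        rw [this, map_one]
    refine ⟨Sh.lift F hrel hpow, ?_, ?_⟩
    · have hle : PP M p {i | i ≠ s} ≤ agree (Sh.lift F hrel hpow) f := by
        conv_lhs => unfold PP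
        rw [Subgroup.closure_le]
        rintro _ ⟨i, hi, rfl⟩
        rw [SetLike.mem_coe, mem_agree (gen_mem (S := {i | i ≠ s}) hi), Sh.lift_gen, hF1 i hi]
      intro a
      exact (mem_agree a.2).1 (hle a.2)
    · have hle : PP M p {i | i ≠ t} ≤ agree (Sh.lift F hrel hpow) g := by
        conv_lhs => unfold PP
        rw [Subgroup.closure_le]
        rintro _ ⟨i, hi, rfl⟩
        rw [SetLike.mem_coe, mem_agree (gen_mem (S := {i | i ≠ t}) hi), Sh.lift_gen, hF2 i hi]
      intro a
      exact (mem_agree a.2).1 (hle a.2)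

variable {C : ∀ (G : Type) [Group G], Prop}

/-- **one label** -/
theorem step [Finite B] (hC : ClosedE C) (hadm : Adm M₁ p) {s t : B} (hst : s ≠ t) (h0 : M s t = 0)
    (h : ∀ i j, ¬ (i = s ∧ j = t) → ¬ (i = t ∧ j = s) → M₁ i j = M i j)
    (hP : C (Sh M₁ p)) : C (Sh M p) := by
  have h' : ∀ i j, M i j = 0 ∨ M₁ i j = M i j := by
    intro i j
    by_cases h1 : i = s ∧ j = t
    · left
      rw [h1.1, h1.2]
      exact h0
    · by_cases h2 : i = t ∧ j = s
      · left
        rw [h2.1, h2.2, M.symmetric]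
        exact h0
      · exact Or.inr (h i j h1 h2)
  refine s_am C hC _ _ _ _ _ (amg hst h0) (tr p h') ?_ ?_ hP
  · intro a ha h1
    exact tr_inj hadm h' {i | i ≠ s} (fun i hi j hj => h i j (fun e => hi e.1) (fun e => hj e.2))
      a ha h1
  · intro a ha h1
    exact tr_inj hadm h' {i | i ≠ t} (fun i hi j hj => h i j (fun e => hj e.2) (fun e => hi e.1))
      a ha h1

end Pool.Agent.W2helper25.AR
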